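import Mathlib

/-!
# Non-trivial multiple state transfer that does not arise from a switching automorphism

An explicit oriented graph on nine vertices has perfect state transfer between every two of the
vertices `0, 1, 2`, while no switching automorphism permutes these three vertices cyclically
(vertex `0` lies in more triangles of the underlying graph than the vertices `1` and `2`).
-/

namespace Pool.Agent.Results.MP_620d87_co.NoSwitchingAutomorphism

open Matrix

/-- An oriented graph: `arc a b` means that there is an edge pointing from `a` to `b`. -/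
structure OrientedGraph (V : Type) where
  arc : V → V → Prop
  asymm : ∀ a b, arc a b → ¬ arc b a

open Classical in
/-- The skew-symmetric adjacency matrix. -/
noncomputable def OrientedGraph.adj {V : Type} (X : OrientedGraph V) : Matrix V V ℝ :=
  fun a b => if X.arc a b then 1 else if X.arc b a then -1 else 0

section defs
variable {V : Type} [Fintype V] [DecidableEq V]

/-- Perfect state transfer from `a` to `b`: `exp (τ A) e_a = l e_b` with `|l| = 1`. -/
def PST (X : OrientedGraph V) (a b : V) : Prop :=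
  ∃ τ l : ℝ, |l| = 1 ∧
    NormedSpace.exp (τ • X.adj) *ᵥ (Pi.single a 1 : V → ℝ) = l • (Pi.single b 1 : V → ℝ)

/-- Multiple state transfer on `S`. -/
def MST (X : OrientedGraph V) (S : Set V) : Prop :=
  ∀ a ∈ S, ∀ b ∈ S, a ≠ b → PST X a b

/-- The matrix `P D`, where `P` is the permutation matrix with `P e_j = e_{σ j}` and `D` is the
diagonal matrix with entries `d j`. -/
def signedPerm (σ : Equiv.Perm V) (d : V → ℝ) : Matrix V V ℝ :=
  Matrix.of fun i j => if i = σ j then d j else 0

/-- `P D` is a switching automorphism of `X`. -/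
def IsSwitchingAutomorphism (X : OrientedGraph V) (σ : Equiv.Perm V) (d : V → ℝ) : Prop :=
  (∀ v, d v = 1 ∨ d v = -1) ∧ (signedPerm σ d)ᵀ * X.adj * signedPerm σ d = X.adj

/-- The multiple state transfer on `S` arises from a switching automorphism. -/
def ArisesFromSwitching (X : OrientedGraph V) (S : Set V) : Prop :=
  ∃ (σ : Equiv.Perm V) (d : V → ℝ), IsSwitchingAutomorphism X σ d ∧
    ∃ a ∈ S, PST X a (σ a) ∧ S ⊆ {b | ∃ k : ℕ, b = (σ ^ k) a}

end defs

/-! ### The exponential on a plane -/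

section exp
variable {n : Type} [Fintype n] [DecidableEq n]

open scoped Matrix.Norms.Operator in
theorem exp_plane (A : Matrix n n ℝ) (w : ℝ) (p q : n → ℝ) (hp : A *ᵥ p = w • q)
    (hq : A *ᵥ q = (-w) • p) (t : ℝ) :
    NormedSpace.exp (t • A) *ᵥ p = Real.cos (w * t) • p + Real.sin (w * t) • q := by
  -- `g s = exp (-s A) (cos (w s) p + sin (w s) q)` is constant
  let g : ℝ → n → ℝ := fun s =>
    NormedSpace.exp (s • (-A)) *ᵥ (Real.cos (w * s) • p + Real.sin (w * s) • q)
  have hder : ∀ s, HasDerivAt g 0 s := by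
    intro s
    have h1 : HasDerivAt (fun u : ℝ => NormedSpace.exp (u • (-A)))
        (NormedSpace.exp (s • (-A)) * (-A)) s := hasDerivAt_exp_smul_const (-A) s
    have hlin : HasDerivAt (fun u : ℝ => w * u) w s := by
      simpa using (hasDerivAt_id s).const_mul w
    have h2 : HasDerivAt (fun u : ℝ => Real.cos (w * u) • p + Real.sin (w * u) • q)
        ((-Real.sin (w * s) * w) • p + (Real.cos (w * s) * w) • q) s :=
      (hlin.cos.smul_const p).add (hlin.sin.smul_const q)
    -- entrywise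
    rw [hasDerivAt_pi]
    intro i
    have h1' : ∀ j, HasDerivAt (fun u : ℝ => NormedSpace.exp (u • (-A)) i j)
        ((NormedSpace.exp (s • (-A)) * (-A)) i j) s := by
      intro j
      have := (hasDerivAt_pi.1 ((hasDerivAt_pi.1 h1) i)) j
      exact this
    have h2' : ∀ j, HasDerivAt (fun u : ℝ => (Real.cos (w * u) • p + Real.sin (w * u) • q) j)
        (((-Real.sin (w * s) * w) • p + (Real.cos (w * s) * w) • q) j) s := by
      intro j
      exact (hasDerivAt_pi.1 h2) j
    have h3 : HasDerivAt (fun u : ℝ => ∑ j, NormedSpace.exp (u • (-A)) i j *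
        (Real.cos (w * u) • p + Real.sin (w * u) • q) j)
        (∑ j, ((NormedSpace.exp (s • (-A)) * (-A)) i j *
          (Real.cos (w * s) • p + Real.sin (w * s) • q) j +
          NormedSpace.exp (s • (-A)) i j *
          ((-Real.sin (w * s) * w) • p + (Real.cos (w * s) * w) • q) j)) s :=
      HasDerivAt.fun_sum fun j _ => (h1' j).mul (h2' j)
    have h4 : (∑ j, ((NormedSpace.exp (s • (-A)) * (-A)) i j *
          (Real.cos (w * s) • p + Real.sin (w * s) • q) j +
          NormedSpace.exp (s • (-A)) i j *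
          ((-Real.sin (w * s) * w) • p + (Real.cos (w * s) * w) • q) j)) = 0 := by
      rw [Finset.sum_add_distrib]
      have e1 : (∑ j, (NormedSpace.exp (s • (-A)) * (-A)) i j *
          (Real.cos (w * s) • p + Real.sin (w * s) • q) j) =
          ((NormedSpace.exp (s • (-A)) * (-A)) *ᵥ
            (Real.cos (w * s) • p + Real.sin (w * s) • q)) i := rfl
      have e2 : (∑ j, NormedSpace.exp (s • (-A)) i j *
          ((-Real.sin (w * s) * w) • p + (Real.cos (w * s) * w) • q) j) =
          (NormedSpace.exp (s • (-A)) *ᵥ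
            ((-Real.sin (w * s) * w) • p + (Real.cos (w * s) * w) • q)) i := rfl
      rw [e1, e2, ← Matrix.mulVec_mulVec, ← Pi.add_apply, ← Matrix.mulVec_add]
      have e3 : (-A) *ᵥ (Real.cos (w * s) • p + Real.sin (w * s) • q) +
          ((-Real.sin (w * s) * w) • p + (Real.cos (w * s) * w) • q) = 0 := by
        rw [Matrix.neg_mulVec, Matrix.mulVec_add, Matrix.mulVec_smul, Matrix.mulVec_smul, hp, hq]
        ext j
        simp only [Pi.add_apply, Pi.neg_apply, Pi.smul_apply, smul_eq_mul, Pi.zero_apply]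
        ring
      rw [e3, Matrix.mulVec_zero]
      rfl
    rw [h4] at h3
    exact h3
  have hconst : ∀ s, g s = g 0 := by
    intro s
    apply is_const_of_deriv_eq_zero (fun x => (hder x).differentiableAt)
    intro x
    exact (hder x).deriv
  have hg0 : g 0 = p := by
    simp [g]
  have hgt : g t = p := by rw [hconst t, hg0]
  have hmul : NormedSpace.exp (t • A) * NormedSpace.exp (t • (-A)) = 1 := by
    rw [smul_neg, ← Matrix.exp_add_of_commute]
    · simp
    · exact (Commute.refl (t • A)).neg_right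
  calc NormedSpace.exp (t • A) *ᵥ p = NormedSpace.exp (t • A) *ᵥ g t := by rw [hgt]
    _ = Real.cos (w * t) • p + Real.sin (w * t) • q := by
        simp only [g]
        rw [Matrix.mulVec_mulVec, hmul, Matrix.one_mulVec]

end exp

/-! ### The oriented graph -/

/-- Out-neighbours. -/
def outN : Fin 9 → Finset (Fin 9) :=
  ![{1, 3, 4}, {2, 5, 6}, {0, 7, 8}, {2, 5}, {2, 6}, {0, 4}, {0, 3}, {1}, {1}]

/-- The oriented graph on nine vertices. -/
def X : OrientedGraph (Fin 9) where
  arc a b := b ∈ outN a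
  asymm := by decide

/-- Its adjacency matrix over the integers. -/
def M : Matrix (Fin 9) (Fin 9) ℤ :=
  fun a b => if b ∈ outN a then 1 else if a ∈ outN b then -1 else 0

theorem adj_apply (a b : Fin 9) : X.adj a b = ((M a b : ℤ) : ℝ) := by
  unfold OrientedGraph.adj M X
  by_cases h1 : b ∈ outN a
  · simp [h1]
  · by_cases h2 : a ∈ outN b
    · simp [h1, h2]
    · simp [h1, h2]

theorem adj_mulVec (u : Fin 9 → ℤ) :
    X.adj *ᵥ (fun i => ((u i : ℤ) : ℝ)) = fun i => (((M *ᵥ u) i : ℤ) : ℝ) := by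
  ext i
  simp only [Matrix.mulVec, dotProduct, adj_apply]
  push_cast
  rfl

/-- The transfer time. -/
noncomputable def τ : ℝ := 2 * Real.pi / (3 * √3)

theorem sqrt3_pos : (0 : ℝ) < √3 := Real.sqrt_pos.2 (by norm_num)

theorem sqrt3_sq : √3 * √3 = (3 : ℝ) := Real.mul_self_sqrt (by norm_num)

theorem arg1 : √3 * τ = Real.pi - Real.pi / 3 := by
  have := sqrt3_pos
  unfold τ
  field_simp
  ring

theorem arg2 : 2 * √3 * τ = Real.pi / 3 + Real.pi := by
  have := sqrt3_pos
  unfold τ
  field_simp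
  ring

theorem transfer (a b : Fin 9) (u0 u1 u2 u3 u4 : Fin 9 → ℤ)
    (h0 : ∀ i, (M *ᵥ u0) i = 0) (h1 : ∀ i, (M *ᵥ u1) i = 3 * u2 i)
    (h2 : ∀ i, (M *ᵥ u2) i = - u1 i) (h3 : ∀ i, (M *ᵥ u3) i = 6 * u4 i)
    (h4 : ∀ i, (M *ᵥ u4) i = - 2 * u3 i)
    (hs : ∀ i, u0 i + u1 i + u3 i = if i = a then 9 else 0)
    (ht : ∀ i, 2 * u0 i - u1 i + 3 * u2 i - u3 i - 3 * u4 i = if i = b then 18 else 0) :
    NormedSpace.exp (τ • X.adj) *ᵥ (Pi.single a 1 : Fin 9 → ℝ) = Pi.single b 1 := by
  let r : (Fin 9 → ℤ) → Fin 9 → ℝ := fun u i => ((u i : ℤ) : ℝ)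
  have e0 := exp_plane X.adj 0 (r u0) 0
    (by
      rw [adj_mulVec]
      ext i
      simp [h0])
    (by simp) τ
  have e1 := exp_plane X.adj (√3) (r u1) (√3 • r u2)
    (by
      rw [adj_mulVec]
      ext i
      rw [h1]
      simp only [Pi.smul_apply, smul_eq_mul, r]
      push_cast
      rw [← mul_assoc, sqrt3_sq])
    (by
      rw [Matrix.mulVec_smul, adj_mulVec]
      ext i
      simp only [Pi.smul_apply, smul_eq_mul, r]
      rw [h2]
      push_cast
      ring) τ
  have e3 := exp_plane X.adj (2 * √3) (r u3) (√3 • r u4)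
    (by
      rw [adj_mulVec]
      ext i
      rw [h3]
      simp only [Pi.smul_apply, smul_eq_mul, r]
      push_cast
      linear_combination (-2 * (u4 i : ℝ)) * sqrt3_sq)
    (by
      rw [Matrix.mulVec_smul, adj_mulVec]
      ext i
      simp only [Pi.smul_apply, smul_eq_mul, r]
      rw [h4]
      push_cast
      ring) τ
  have hc1 : Real.cos (√3 * τ) = -(1 / 2) := by
    rw [arg1, Real.cos_pi_sub, Real.cos_pi_div_three]
  have hs1 : Real.sin (√3 * τ) = √3 / 2 := by
    rw [arg1, Real.sin_pi_sub, Real.sin_pi_div_three]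
  have hc2 : Real.cos (2 * √3 * τ) = -(1 / 2) := by
    rw [arg2, Real.cos_add_pi, Real.cos_pi_div_three]
  have hs2 : Real.sin (2 * √3 * τ) = -(√3 / 2) := by
    rw [arg2, Real.sin_add_pi, Real.sin_pi_div_three]
  rw [hc1, hs1] at e1
  rw [hc2, hs2] at e3
  have hea : (Pi.single a 1 : Fin 9 → ℝ) = (1 / 9 : ℝ) • (r u0 + r u1 + r u3) := by
    ext i
    simp only [Pi.smul_apply, Pi.add_apply, smul_eq_mul, r]
    have := congrArg (Int.cast : ℤ → ℝ) (hs i)
    push_cast at this
    rw [this]
    by_cases hi : i = a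
    · subst hi; simp
    · simp [hi]
  rw [hea, Matrix.mulVec_smul, Matrix.mulVec_add, Matrix.mulVec_add, e0, e1, e3]
  ext i
  have h9 := congrArg (Int.cast : ℤ → ℝ) (ht i)
  push_cast at h9
  simp only [Pi.smul_apply, Pi.add_apply, smul_eq_mul, r, zero_mul, Real.cos_zero, Real.sin_zero,
    Pi.zero_apply]
  have e5 : (Pi.single b 1 : Fin 9 → ℝ) i = (1 / 18 : ℝ) * (if i = b then 18 else 0) := by
    by_cases hi : i = b
    · subst hi; simp
    · simp [hi]
  rw [e5, ← h9]
  linear_combination (1 / 18 * (u2 i : ℝ) - 1 / 18 * (u4 i : ℝ)) * sqrt3_sq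

theorem t01 : NormedSpace.exp (τ • X.adj) *ᵥ (Pi.single 0 1 : Fin 9 → ℝ) = Pi.single 1 1 :=
  transfer 0 1 ![3, 3, 3, 0, 0, 0, 0, 0, 0] ![2, -1, -1, 1, 1, 1, 1, -2, -2]
    ![0, 1, -1, -1, -1, 1, 1, 0, 0] ![4, -2, -2, -1, -1, -1, -1, 2, 2]
    ![0, -2, 2, -1, -1, 1, 1, 0, 0] (by decide) (by decide) (by decide) (by decide) (by decide)
    (by decide) (by decide)

theorem t12 : NormedSpace.exp (τ • X.adj) *ᵥ (Pi.single 1 1 : Fin 9 → ℝ) = Pi.single 2 1 :=
  transfer 1 2 ![3, 3, 3, 0, 0, 0, 0, 0, 0] ![-1, 2, -1, -2, -2, 1, 1, 1, 1]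
    ![-1, 0, 1, 0, 0, -1, -1, 1, 1] ![-2, 4, -2, 2, 2, -1, -1, -1, -1]
    ![2, 0, -2, 0, 0, -1, -1, 1, 1] (by decide) (by decide) (by decide) (by decide) (by decide)
    (by decide) (by decide)

theorem t20 : NormedSpace.exp (τ • X.adj) *ᵥ (Pi.single 2 1 : Fin 9 → ℝ) = Pi.single 0 1 :=
  transfer 2 0 ![3, 3, 3, 0, 0, 0, 0, 0, 0] ![-1, -1, 2, 1, 1, -2, -2, 1, 1]
    ![1, -1, 0, 1, 1, 0, 0, -1, -1] ![-2, -2, 4, -1, -1, 2, 2, -1, -1]
    ![-2, 2, 0, 1, 1, 0, 0, -1, -1] (by decide) (by decide) (by decide) (by decide) (by decide)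
    (by decide) (by decide)

theorem exp_double : NormedSpace.exp ((2 * τ) • X.adj) =
    NormedSpace.exp (τ • X.adj) * NormedSpace.exp (τ • X.adj) := by
  rw [two_mul, add_smul, Matrix.exp_add_of_commute _ _ (Commute.refl _)]

theorem t02 : NormedSpace.exp ((2 * τ) • X.adj) *ᵥ (Pi.single 0 1 : Fin 9 → ℝ) =
    Pi.single 2 1 := by
  rw [exp_double, ← Matrix.mulVec_mulVec, t01, t12]

theorem t10 : NormedSpace.exp ((2 * τ) • X.adj) *ᵥ (Pi.single 1 1 : Fin 9 → ℝ) =
    Pi.single 0 1 := by
  rw [exp_double, ← Matrix.mulVec_mulVec, t12, t20]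

theorem t21 : NormedSpace.exp ((2 * τ) • X.adj) *ᵥ (Pi.single 2 1 : Fin 9 → ℝ) =
    Pi.single 1 1 := by
  rw [exp_double, ← Matrix.mulVec_mulVec, t20, t01]

theorem mst : MST X {0, 1, 2} := by
  intro a ha b hb hab
  simp only [Set.mem_insert_iff, Set.mem_singleton_iff] at ha hb
  have key : ∀ (c : ℝ) (x y : Fin 9),
      NormedSpace.exp (c • X.adj) *ᵥ (Pi.single x 1 : Fin 9 → ℝ) = Pi.single y 1 → PST X x y :=
    fun c x y h => ⟨c, 1, by simp, by rw [h, one_smul]⟩
  rcases ha with rfl | rfl | rfl <;> rcases hb with rfl | rfl | rfl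
  · exact absurd rfl hab
  · exact key _ _ _ t01
  · exact key _ _ _ t02
  · exact key _ _ _ t10
  · exact absurd rfl hab
  · exact key _ _ _ t12
  · exact key _ _ _ t20
  · exact key _ _ _ t21
  · exact absurd rfl hab

/-! ### No switching automorphism -/

/-- Adjacency in the underlying graph. -/
def R (a b : Fin 9) : Prop := b ∈ outN a ∨ a ∈ outN b

instance : DecidableRel R := fun a b => inferInstanceAs (Decidable (b ∈ outN a ∨ a ∈ outN b))

theorem adj_ne_zero_iff (a b : Fin 9) : X.adj a b ≠ 0 ↔ R a b := by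
  rw [adj_apply, Int.cast_ne_zero]
  revert a b
  decide

theorem conj_apply (σ : Equiv.Perm (Fin 9)) (d : Fin 9 → ℝ) (a b : Fin 9) :
    ((signedPerm σ d)ᵀ * X.adj * signedPerm σ d) a b = d a * X.adj (σ a) (σ b) * d b := by
  simp only [Matrix.mul_apply, Matrix.transpose_apply, signedPerm, Matrix.of_apply]
  simp [ite_mul, mul_ite]

/-- Number of closed walks of length three at `v` in the underlying graph. -/
def T (v : Fin 9) : ℕ :=
  (Finset.univ.filter fun p : Fin 9 × Fin 9 => R v p.1 ∧ R v p.2 ∧ R p.1 p.2).card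

theorem T_invariant {σ : Equiv.Perm (Fin 9)} {d : Fin 9 → ℝ}
    (h : IsSwitchingAutomorphism X σ d) (v : Fin 9) : T (σ v) = T v := by
  obtain ⟨hd, hA⟩ := h
  have hR : ∀ a b, R (σ a) (σ b) ↔ R a b := by
    intro a b
    have e := conj_apply σ d a b
    rw [hA] at e
    rw [← adj_ne_zero_iff, ← adj_ne_zero_iff, e]
    have ha : d a ≠ 0 := by rcases hd a with h | h <;> rw [h] <;> norm_num
    have hb : d b ≠ 0 := by rcases hd b with h | h <;> rw [h] <;> norm_num
    constructor
    · intro h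
      exact mul_ne_zero (mul_ne_zero ha h) hb
    · intro h h0
      apply h
      rw [h0]
      ring
  unfold T
  symm
  apply Finset.card_equiv (Equiv.prodCongr σ σ)
  intro p
  simp [hR]

theorem T_values : T 0 = 18 ∧ T 1 = 10 ∧ T 2 = 10 := by
  unfold T
  decide +kernel

theorem not_arises : ¬ ArisesFromSwitching X {0, 1, 2} := by
  rintro ⟨σ, d, h, a, ha, -, hS⟩
  have hpow : ∀ k : ℕ, T ((σ ^ k) a) = T a := by
    intro k
    induction k with
    | zero => simp
    | succ k ih =>
      rw [pow_succ', Equiv.Perm.mul_apply, T_invariant h, ih]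
  obtain ⟨v0, v1, v2⟩ := T_values
  have h0 : T 0 = T a := by
    obtain ⟨k, hk⟩ := hS (show (0 : Fin 9) ∈ ({0, 1, 2} : Set (Fin 9)) by simp)
    rw [hk]
    exact hpow k
  have h1 : T 1 = T a := by
    obtain ⟨k, hk⟩ := hS (show (1 : Fin 9) ∈ ({0, 1, 2} : Set (Fin 9)) by simp)
    rw [hk]
    exact hpow k
  omega

/-- There is an oriented graph with multiple state transfer on a set of three vertices which does
not arise from a switching automorphism. -/
theorem result : ∃ (Y : OrientedGraph (Fin 9)) (S : Set (Fin 9)),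
    3 ≤ S.ncard ∧ MST Y S ∧ ¬ ArisesFromSwitching Y S := by
  refine ⟨X, {0, 1, 2}, ?_, mst, not_arises⟩
  have : (({0, 1, 2} : Finset (Fin 9)) : Set (Fin 9)) = {0, 1, 2} := by
    ext x; simp
  rw [← this, Set.ncard_coe_finset]
  decide

end Pool.Agent.Results.MP_620d87_co.NoSwitchingAutomorphism
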